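import Pool.Agent.ECU.Final

/-!
# MP_651b89_nt: products of progressions and exponents divisible by three

There are `C, k0` such that for all `k ≥ k0`, all positive `n, d, b, y` with `gcd(n, d) = 1`, all `l` divisible
by `3`, with all prime factors of `b` at most `k`: if `n (n + d) ⋯ (n + (k - 1) d) = b y ^ l` then
`n + k d ≤ C k` and some prime factor `p` of `b` satisfies `k < 2 p`.
-/

set_option autoImplicit false

namespace Pool.Agent.Results.MP_651b89_nt.CubeExponents

theorem result : ∃ C k0 : ℕ, ∀ k n d b y l : ℕ, k0 ≤ k → 0 < n → 0 < d → 0 < b → 0 < y →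
    Nat.Coprime n d → 3 ∣ l → (∀ p : ℕ, p.Prime → p ∣ b → p ≤ k) →
    ∏ i ∈ Finset.range k, (n + i * d) = b * y ^ l →
    n + k * d ≤ C * k ∧ ∃ p : ℕ, p.Prime ∧ p ∣ b ∧ k < 2 * p :=
  ECU.main

end Pool.Agent.Results.MP_651b89_nt.CubeExponents
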