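import Pool.Agent.AP4.N10

set_option autoImplicit false

namespace Pool.Agent.Results.MP_651b89_nt.EvenExponents

/-- There is an absolute constant `C` such that the equation
`n (n + d) ⋯ (n + (k-1) d) = b y ^ l`, `gcd (n, d) = 1`, `P(b) ≤ k`, has no solution with `k ≥ 4` and
`l` even, as soon as either all primes `p ≤ k` divide `d`, or `∑_{p ≤ k, p ∣ d} (log p) / p > C`. -/
theorem result : ∃ C : ℝ, ∀ n d k b y l : ℕ, 0 < n → 0 < d → 0 < b → 0 < y →
    Nat.Coprime n d → 4 ≤ k → 2 ≤ l → Even l → (∀ p : ℕ, p.Prime → p ∣ b → p ≤ k) →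
    ((∀ p : ℕ, p.Prime → p ≤ k → p ∣ d) ∨
      C < ∑ p ∈ (Finset.Icc 1 k).filter (fun p => p.Prime ∧ p ∣ d), Real.log p / p) →
    ∏ i ∈ Finset.range k, (n + i * d) ≠ b * y ^ l := by
  obtain ⟨C, hC⟩ := AP4.even_exponents
  refine ⟨C, ?_⟩
  intro n d k b y l hn hd hb hy hcop hk _ hl hP hcase
  refine hC n d k b y l hn hd hb hy hcop hk hl hP ?_
  rcases hcase with h | h
  · exact Or.inl h
  · refine Or.inr (lt_of_lt_of_eq h ?_)
    apply Finset.sum_congr _ (fun _ _ => rfl)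
    ext p
    simp only [Finset.mem_filter, Finset.mem_Icc, Nat.mem_primesLE]
    constructor
    · rintro ⟨⟨_, h2⟩, h3, h4⟩
      exact ⟨⟨h2, h3⟩, h4⟩
    · rintro ⟨⟨h2, h3⟩, h4⟩
      exact ⟨⟨h3.one_lt.le, h2⟩, h3, h4⟩

end Pool.Agent.Results.MP_651b89_nt.EvenExponents
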