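import Pool.Agent.EAP.Final

set_option autoImplicit false

namespace Pool.Agent.Results.MP_651b89_nt.LargeKAllDifferences

/-- There is `k₀` such that for all `k ≥ k₀`, all `n, d, b, y ≥ 1` with `gcd (n, d) = 1` and all even
`l`, if every prime factor `p` of `b` is `2` or satisfies `100 p ≤ k`, then
`n (n + d) ⋯ (n + (k-1) d) ≠ b y ^ l`. -/
theorem result : ∃ k₀ : ℕ, ∀ n d b y k l : ℕ, 1 ≤ n → 1 ≤ d → 1 ≤ b → 1 ≤ y → k₀ ≤ k → Even l →
    Nat.gcd n d = 1 → (∀ p : ℕ, p.Prime → p ∣ b → p ≤ 2 ∨ 100 * p ≤ k) →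
    ∏ i ∈ Finset.range k, (n + i * d) ≠ b * y ^ l := by
  obtain ⟨k₀, h⟩ := EAP.main
  refine ⟨max k₀ 200, ?_⟩
  intro n d b y k l hn hd hb hy hk hl hc hP
  refine h n d k b y l hn hd hb hy hc ((le_max_left _ _).trans hk) hl ?_
  intro p hp hpb
  rcases hP p hp hpb with h2 | h2
  · have : 200 ≤ k := (le_max_right _ _).trans hk
    omega
  · exact h2

end Pool.Agent.Results.MP_651b89_nt.LargeKAllDifferences
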